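import Pool.Agent.helper70.LE.SpecN

/-!
# Row EQP: the block idempotents of `L` and of `L ⊓ cz P`, relative form
-/

set_option autoImplicit false

namespace Pool.Agent.LE

open Pool.Agent.helper58.DC Pool.Agent.DI Pool.Agent.GR Pool.Agent.OB Pool.Agent.DR Pool.Agent.FI Pool.Agent.FI3 Pool.Agent.FI4

theorem EQP_alg {A : Type} [AddCommGroup A] (m : A → A → A)
    (hass : ∀ a b c, m (m a b) c = m a (m b c))
    (hadd : ∀ a b c, m (a + b) c = m a c + m b c) (hadd' : ∀ a b c, m a (b + c) = m a b + m a c)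
    (hsub : ∀ a b c, m (a - b) c = m a c - m b c) (hsub' : ∀ a b c, m a (b - c) = m a b - m a c)
    (e f u : A) (he : m e e = e + u) (hf : m f f = f) (hc : m e f = m f e) (hu : m u e = m e u)
    (hu' : m u f = m f u) :
    m (m (e - f) (e - f)) (e - f) - (e - f) = u + m e u - (m f u + m f u + m f u) := by
  have h1 : m (m f e) e = m f e + m f u := by rw [hass, he, hadd']
  have h2 : m (m f e) f = m f e := by rw [← hc, hass, hf]
  have h3 : m (e - f) (e - f) = e + u - m f e - (m f e - f) := by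
    rw [hsub, hsub', hsub', he, hf, hc]
  rw [h3, hsub, hsub, hadd, hsub, hsub', hsub', hsub', hsub', he, hf, hc, h1, h2, hu, hu']
  abel

theorem EQP (hBLE : BLE_stmt) (hMLT : MLT_stmt) (hEXB : EXB_stmt) (hSBI : SBI_stmt) (hCVF : CVF_stmt) (hCCI : CCI_stmt) (hIDM : IDM_stmt) (hNIL : Pool.Agent.GR.NIL_stmt) : EQP_stmt := by
  classical
  intro p M hS G _ _ L P hP hPL θ x hx
  obtain ⟨hass, hbil, -, -, -, -, hcomm, hCF, -, -, -, hInM⟩ := hCVF G
  set K : Subgroup G := L ⊓ cz P with hK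
  have hKL : K ≤ L := inf_le_left
  obtain ⟨bH, eCF, he, eid, -, -, -, hBlq⟩ := hBLE p M hS G L L le_rfl θ
  obtain ⟨bL, fCF, hf, fid, -, -, -, -⟩ := hBLE p M hS G L K hKL θ
  rw [hBlq] at bH eCF he eid
  obtain ⟨-, ecc, -, -⟩ := hIDM G L _ bH.sub
  obtain ⟨-, fcc, -, -⟩ := hIDM G K _ bL.sub
  show InM M (eS L (Bl M L θ) x - eS K (Bq M L K θ) x)
  set e : G → ℂ := eS L (Bl M L θ) with hedef
  set f : G → ℂ := eS K (Bq M L K θ) with hfdef
  obtain ⟨e'CF, hbr, hcce⟩ := (hMLT p M hS G L P hP hPL).1 e e eCF eCF he he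
  rw [eid] at hbr
  set e' : G → ℂ := rsH K e with he'def
  have heq : ∀ c ∈ K, e' c = e c := by
    intro c hc
    rw [he'def]
    unfold rsH
    rw [if_pos hc]
  have he' : ∀ c, IntAt M (e' c) := by
    intro c
    by_cases hc : c ∈ K
    · rw [heq c hc]
      exact he c
    · rw [e'CF.2 c hc]
      exact IntAt.zero hS
  -- the null function u
  set u : G → ℂ := cv e' e' - e' with hudef
  have hee : CF K (cv e' e') := (hCF K e' e' e'CF e'CF).1
  have huCF : CF K u := (hCF K (cv e' e') e' hee e'CF).2.2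
  have hu : ∀ c, InM M (u c) := by
    intro c
    have k1 := (hbr c).neg
    have k2 : u c = -(e' c - cv e' e' c) := by
      rw [hudef, Pi.sub_apply]
      ring
    rw [k2]
    exact k1
  have hzid : cv (cv (e' - f) (e' - f)) (e' - f) - (e' - f) =
      u + cv e' u - (cv f u + cv f u + cv f u) := by
    refine EQP_alg cv hass (fun a b c => (hbil a b c).1) (fun a b c => (hbil a b c).2.1)
      (fun a b c => (hbil a b c).2.2.1) (fun a b c => (hbil a b c).2.2.2) e' f u ?_ fid ?_ ?_ ?_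
    · rw [hudef]
      abel
    · exact hcomm K e' f e'CF fCF.2
    · exact hcomm K u e' huCF e'CF.2
    · exact hcomm K u f huCF fCF.2
  have hzCF : CF K (e' - f) := (hCF K e' f e'CF fCF).2.2
  have hzint : ∀ c, IntAt M ((e' - f) c) := fun c => (he' c).sub hS (hf c)
  have hznull : ∀ c, InM M (cv (cv (e' - f) (e' - f)) (e' - f) c - (e' - f) c) := by
    intro c
    have k1 := congrFun hzid c
    rw [Pi.sub_apply] at k1
    rw [k1, Pi.sub_apply, Pi.add_apply, Pi.add_apply, Pi.add_apply]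
    have a1 := hInM p M hS e' u he' hu c
    have a2 := hInM p M hS f u hf hu c
    exact ((hu c).add hS a1).sub hS ((a2.add hS a2).add hS a2)
  have hcc : ∀ η ∈ IrrOn K, InM M (cc η (e' - f)) := by
    intro η hη
    obtain ⟨hcc1, -, -⟩ := hCCI G K η hη
    rw [(hcc1 1 e' f).2.1, fcc η hη]
    rw [(hcce η hη).1]
    obtain ⟨ψ, hψ, hSB⟩ := hEXB p M hS G L P hP hPL η hη
    have k2 := (hSBI p M hS G L η ψ hSB).1 e eCF he
    rw [ecc ψ hψ] at k2
    have hiff : (ψ ∈ Bl M L θ) ↔ (η ∈ Bq M L K θ) := by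
      constructor
      · rintro ⟨_, k3⟩
        exact ⟨hη, hSB.trans k3⟩
      · rintro ⟨_, k3⟩
        exact ⟨hψ, hSB.symm.trans k3⟩
    by_cases hB : ψ ∈ Bl M L θ
    · rw [if_pos hB] at k2
      rw [if_pos (hiff.1 hB)]
      exact k2
    · rw [if_neg hB] at k2
      rw [if_neg (fun h => hB (hiff.2 h))]
      exact k2
  have hfin := hNIL p M hS G K (e' - f) hzCF hzint hcc hznull x
  rw [Pi.sub_apply, heq x hx] at hfin
  exact hfin

end Pool.Agent.LE
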